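import Mathlib

/-!
# A lemma on elements of `ℤ[ζ₅]` with norm `11 ^ g * r ^ 5` (abstract form)

We work in a principal ideal domain `O` with an element `z` with the formal properties of `ζ₅` in
`ℤ[ζ₅]`.
-/

set_option autoImplicit false

namespace Pool.Agent.T6.H9.Q5

/-- the properties of `ℤ[ζ₅]` that we use: `z` is a primitive fifth root of unity, `s` is the
automorphism `z ↦ z ^ 2`, and `u / (complex conjugate of u)` is a root of unity for every unit. -/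
structure Cyc5 (O : Type) [CommRing O] (z : O) (s : O →+* O) : Prop where
  hz : 1 + z + z ^ 2 + z ^ 3 + z ^ 4 = 0
  hs : s z = z ^ 2
  rep : ∀ x : O, ∃ a b c d : ℤ, x = a + b * z + c * z ^ 2 + d * z ^ 3
  ind : ∀ a b c d : ℤ, (a : O) + b * z + c * z ^ 2 + d * z ^ 3 = 0 → a = 0 ∧ b = 0 ∧ c = 0 ∧ d = 0
  unit : ∀ u : Oˣ, ∃ t : ℕ, (u : O) = (-z) ^ t * s (s u)

variable {O : Type} [CommRing O] {z : O} {s : O →+* O}

namespace Cyc5

variable (h : Cyc5 O z s)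
include h

lemma z5 : z ^ 5 = 1 := by
  linear_combination (z - 1) * h.hz

lemma s4 (x : O) : s (s (s (s x))) = x := by
  obtain ⟨a, b, c, d, rfl⟩ := h.rep x
  simp only [map_add, map_mul, map_pow, map_intCast, h.hs]
  have e1 : (((z ^ 2) ^ 2) ^ 2) ^ 2 = z := by
    calc (((z ^ 2) ^ 2) ^ 2) ^ 2 = (z ^ 5) ^ 3 * z := by ring
      _ = z := by rw [h.z5]; ring
  rw [e1]

lemma dvd5 {a b c d : ℤ} (h5 : (5 : O) ∣ a + b * z + c * z ^ 2 + d * z ^ 3) :
    5 ∣ a ∧ 5 ∣ b ∧ 5 ∣ c ∧ 5 ∣ d := by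
  obtain ⟨y, hy⟩ := h5
  obtain ⟨a', b', c', d', rfl⟩ := h.rep y
  have h1 := h.ind (a - 5 * a') (b - 5 * b') (c - 5 * c') (d - 5 * d') (by
    push_cast
    linear_combination hy)
  omega

lemma int_dvd5 {a : ℤ} (h5 : (5 : O) ∣ a) : 5 ∣ a := by
  refine (h.dvd5 (a := a) (b := 0) (c := 0) (d := 0) ?_).1
  simpa using h5

lemma eleven_ne : (11 : O) ≠ 0 := by
  intro h0
  have := h.ind 11 0 0 0 (by push_cast; linear_combination h0)
  omega

/-- `2 + z` divides an integer only if `11` does -/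
lemma rho_dvd_int {k : ℤ} (hk : (2 + z) ∣ (k : O)) : 11 ∣ k := by
  obtain ⟨y, hy⟩ := hk
  obtain ⟨a, b, c, d, rfl⟩ := h.rep y
  have h1 := h.ind (k - (2 * a - d)) (-(a + 2 * b - d)) (-(b + 2 * c - d)) (-(c + 2 * d - d)) (by
    push_cast
    linear_combination hy + d * h.hz)
  omega

lemma rho_int (x : O) : ∃ k : ℤ, (2 + z) ∣ x - k := by
  obtain ⟨a, b, c, d, rfl⟩ := h.rep x
  refine ⟨a - 2 * b + 4 * c - 8 * d, b + c * (z - 2) + d * (z ^ 2 - 2 * z + 4), ?_⟩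
  push_cast
  ring

lemma rho_prod : (2 + z) * s (2 + z) * s (s (2 + z)) * s (s (s (2 + z))) = 11 := by
  simp only [map_add, map_ofNat, map_pow, h.hs]
  have e1 : ((z ^ 2) ^ 2) ^ 2 = z ^ 3 := by
    calc ((z ^ 2) ^ 2) ^ 2 = z ^ 5 * z ^ 3 := by ring
      _ = z ^ 3 := by rw [h.z5]; ring
  rw [e1]
  linear_combination (5 + 3 * z + 4 * z ^ 3 + z ^ 5 + z ^ 6) * h.hz

lemma rho_prime : Prime (2 + z) := by
  refine ⟨?_, ?_, ?_⟩
  · intro h0
    apply h.eleven_ne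
    have h1 := h.rho_prod
    rw [h0] at h1
    simpa using h1.symm
  · intro hu
    obtain ⟨y, hy⟩ := hu.exists_right_inv
    have : (11 : ℤ) ∣ 1 := h.rho_dvd_int ⟨y, by rw [hy]; simp⟩
    omega
  · intro x y hxy
    obtain ⟨k, hk⟩ := h.rho_int x
    obtain ⟨l, hl⟩ := h.rho_int y
    have h1 : (2 + z) ∣ ((k * l : ℤ) : O) := by
      have e : ((k * l : ℤ) : O) = x * y - (x - k) * y - k * (y - l) := by push_cast; ring
      rw [e]
      exact dvd_sub (dvd_sub hxy (hk.mul_right _)) (hl.mul_left _)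
    have h2 := h.rho_dvd_int h1
    have h11 : (2 + z) ∣ (11 : O) := by
      rw [← h.rho_prod, mul_assoc, mul_assoc]
      exact dvd_mul_right _ _
    have hp : Prime (11 : ℤ) := by norm_num
    rcases hp.dvd_or_dvd h2 with h3 | h3
    · left
      obtain ⟨m, rfl⟩ := h3
      have e : x = (x - ((11 * m : ℤ) : O)) + 11 * m := by push_cast; ring
      rw [e]
      exact dvd_add hk (h11.mul_right _)
    · right
      obtain ⟨m, rfl⟩ := h3
      have e : y = (y - ((11 * m : ℤ) : O)) + 11 * m := by push_cast; ring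
      rw [e]
      exact dvd_add hl (h11.mul_right _)

/-- fifth powers are rational modulo `5` -/
lemma pow5_int (x : O) : ∃ k : ℤ, (5 : O) ∣ x ^ 5 - k := by
  have add5 : ∀ x y : O, (5 : O) ∣ (x + y) ^ 5 - (x ^ 5 + y ^ 5) := fun x y =>
    ⟨x ^ 4 * y + 2 * x ^ 3 * y ^ 2 + 2 * x ^ 2 * y ^ 3 + x * y ^ 4, by ring⟩
  obtain ⟨a, b, c, d, rfl⟩ := h.rep x
  refine ⟨a ^ 5 + b ^ 5 + c ^ 5 + d ^ 5, ?_⟩
  have e1 : (b * z) ^ 5 = (b : O) ^ 5 := by rw [mul_pow, h.z5, mul_one]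
  have e2 : (c * z ^ 2) ^ 5 = (c : O) ^ 5 := by
    rw [mul_pow, ← pow_mul, mul_comm 2 5, pow_mul, h.z5, one_pow, mul_one]
  have e3 : (d * z ^ 3) ^ 5 = (d : O) ^ 5 := by
    rw [mul_pow, ← pow_mul, mul_comm 3 5, pow_mul, h.z5, one_pow, mul_one]
  have h1 := add5 ((a : O) + b * z + c * z ^ 2) (d * z ^ 3)
  have h2 := add5 ((a : O) + b * z) (c * z ^ 2)
  have h3 := add5 (a : O) (b * z)
  have e : ((a : O) + b * z + c * z ^ 2 + d * z ^ 3) ^ 5 - ((a ^ 5 + b ^ 5 + c ^ 5 + d ^ 5 : ℤ) : O)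
      = (((a : O) + b * z + c * z ^ 2 + d * z ^ 3) ^ 5 -
          (((a : O) + b * z + c * z ^ 2) ^ 5 + (d * z ^ 3) ^ 5)) +
        ((((a : O) + b * z + c * z ^ 2) ^ 5) - (((a : O) + b * z) ^ 5 + (c * z ^ 2) ^ 5)) +
        (((a : O) + b * z) ^ 5 - ((a : O) ^ 5 + (b * z) ^ 5)) := by
    rw [e1, e2, e3]; push_cast; ring
  rw [e]
  exact dvd_add (dvd_add h1 h2) h3

/-- `2 + z` and its complex conjugate do not differ by a root of unity modulo `5` -/
lemma rho_conj (t : ℕ) (h5 : (5 : O) ∣ (-z) ^ t * (2 + z) - (2 + z ^ 4)) : False := by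
  have hz10 : (-z) ^ 10 = 1 := by
    calc (-z) ^ 10 = (z ^ 5) ^ 2 := by ring
      _ = 1 := by rw [h.z5]; ring
  have hred : (-z) ^ t = (-z) ^ (t % 10) := by
    conv_lhs => rw [← Nat.div_add_mod t 10, pow_add, pow_mul, hz10, one_pow, one_mul]
  rw [hred] at h5
  have hlt : t % 10 < 10 := Nat.mod_lt _ (by norm_num)
  have key : ∀ a b c d : ℤ, (-z) ^ (t % 10) * (2 + z) - (2 + z ^ 4) =
      a + b * z + c * z ^ 2 + d * z ^ 3 → 5 ∣ a ∧ 5 ∣ b ∧ 5 ∣ c ∧ 5 ∣ d := by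
    intro a b c d e
    rw [e] at h5
    exact h.dvd5 h5
  generalize t % 10 = T at *
  interval_cases T
  · have := key 1 2 1 1 (by push_cast; linear_combination -h.hz)
    omega
  · have := key (-1) (-1) 0 1 (by push_cast; linear_combination -h.hz)
    omega
  · have := key (-1) 1 3 2 (by push_cast; linear_combination -h.hz)
    omega
  · have := key 0 2 2 0 (by push_cast; linear_combination -2 * h.hz)
    omega
  · have := key (-2) (-1) (-1) (-1) (by push_cast; linear_combination (z) * h.hz)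
    omega
  · have := key (-3) 0 1 1 (by push_cast; linear_combination (1 - z - z ^ 2) * h.hz)
    omega
  · have := key (-1) 3 2 1 (by push_cast; linear_combination (-1 - 2 * z + z ^ 2 + z ^ 3) * h.hz)
    omega
  · have := key (-1) 1 (-1) 0 (by
      push_cast; linear_combination (-1 + 2 * z ^ 2 - z ^ 3 - z ^ 4) * h.hz)
    omega
  · have := key (-2) 0 0 2 (by
      push_cast; linear_combination (-2 * z ^ 3 + z ^ 4 + z ^ 5) * h.hz)
    omega
  · have := key 0 3 3 3 (by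
      push_cast; linear_combination (-2 - z + 2 * z ^ 4 - z ^ 5 - z ^ 6) * h.hz)
    omega

/-- the key lemma, when `2 + z` divides the element -/
lemma key0 [IsDomain O] [IsPrincipalIdealRing O] {a b R r : ℤ} {g : ℕ} {B : O}
    (hB1 : B - s B ∣ 10) (hB2 : B - s (s B) ∣ 10) (hB3 : B - s (s (s B)) ∣ 10) (hb : 5 ∣ b)
    (hR : (a + b * B) * (a + b * s B) * (a + b * s (s B)) * (a + b * s (s (s B))) = (R : O))
    (hcop : IsCoprime R (10 * b)) (hRr : R = 11 ^ g * r ^ 5) (hg : ¬ 5 ∣ g)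
    (hdiv : (2 + z) ∣ (a + b * B : O)) : False := by
  set ν : O := a + b * B with hν
  have hs1 : s ν = a + b * s B := by rw [hν]; simp
  have hs2 : s (s ν) = a + b * s (s B) := by rw [hν]; simp
  have hs3 : s (s (s ν)) = a + b * s (s (s B)) := by rw [hν]; simp
  have hR' : ν * (s ν * s (s ν) * s (s (s ν))) = (R : O) := by
    rw [hs3, hs2, hs1, ← hR]; ring
  have hνR : ν ∣ (R : O) := ⟨_, hR'.symm⟩
  have hcopO : IsCoprime (R : O) (10 * b) := by
    have := hcop.map (Int.castRingHom O)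
    simpa using this
  have hcopν : IsCoprime ν (10 * b) := hcopO.of_isCoprime_of_dvd_left hνR
  -- coprimality with the conjugates
  have hcc : ∀ B' : O, B - B' ∣ 10 → IsCoprime ν (a + b * B') := by
    intro B' hB'
    have h1 : IsCoprime ν (b * (B - B')) := by
      apply hcopν.of_isCoprime_of_dvd_right
      rw [mul_comm]
      exact mul_dvd_mul_right hB' _
    have h2 : (a + b * B' : O) = -(b * (B - B')) + ν * 1 := by rw [hν]; ring
    rw [h2]
    exact (IsCoprime.add_mul_left_right_iff).2 h1.neg_right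
  have hc1 : IsCoprime ν (s ν) := by rw [hs1]; exact hcc _ hB1
  have hc2 : IsCoprime ν (s (s ν)) := by rw [hs2]; exact hcc _ hB2
  have hc3 : IsCoprime ν (s (s (s ν))) := by rw [hs3]; exact hcc _ hB3
  have hc : IsCoprime ν (s ν * s (s ν) * s (s (s ν))) := (hc1.mul_right hc2).mul_right hc3
  have hρ := h.rho_prime
  set ρ : O := 2 + z with hρd
  have hρnot : ¬ ρ ∣ s ν * s (s ν) * s (s (s ν)) := by
    intro h1
    exact hρ.not_isUnit (hc.isUnit_of_dvd' hdiv h1)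
  have hpow : ρ ^ g ∣ ν := by
    apply hρ.pow_dvd_of_dvd_mul_right g hρnot
    rw [hR', hRr]
    push_cast
    apply Dvd.dvd.mul_right
    apply pow_dvd_pow_of_dvd
    rw [← h.rho_prod, mul_assoc, mul_assoc]
    exact dvd_mul_right _ _
  obtain ⟨δ, hδ⟩ := hpow
  have hδprod : δ * (s δ * s (s δ) * s (s (s δ))) = (r : O) ^ 5 := by
    have h11 : (11 : O) ^ g ≠ 0 := pow_ne_zero _ h.eleven_ne
    apply mul_left_cancel₀ h11
    have h1 := hR'
    rw [hRr, hδ] at h1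
    simp only [map_mul, map_pow] at h1
    push_cast at h1
    rw [← h1, ← h.rho_prod, mul_pow, mul_pow, mul_pow, ← hρd]
    ring
  have hδν : δ ∣ ν := ⟨_, by rw [hδ, mul_comm]⟩
  have hδ1 : s δ ∣ s ν := map_dvd s hδν
  have hδ2 : s (s δ) ∣ s (s ν) := map_dvd s hδ1
  have hδ3 : s (s (s δ)) ∣ s (s (s ν)) := map_dvd s hδ2
  have hcδ : IsCoprime δ (s δ * s (s δ) * s (s (s δ))) :=
    (hc.of_isCoprime_of_dvd_left hδν).of_isCoprime_of_dvd_right
      (mul_dvd_mul (mul_dvd_mul hδ1 hδ2) hδ3)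
  obtain ⟨e, he⟩ := exists_associated_pow_of_mul_eq_pow' hcδ hδprod
  obtain ⟨u, hu⟩ := he
  -- reduction modulo `5`
  let π := Ideal.Quotient.mk (Ideal.span {(5 : O)})
  have hπ : ∀ x y : O, (5 : O) ∣ x - y ↔ π x = π y := by
    intro x y
    rw [Ideal.Quotient.eq, Ideal.mem_span_singleton]
  have hπν : π ν = π a := by
    rw [← hπ, hν]
    obtain ⟨c, rfl⟩ := hb
    exact ⟨c * B, by push_cast; ring⟩
  have hπsν : π (s (s ν)) = π a := by
    rw [← hπ, hs2]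
    obtain ⟨c, rfl⟩ := hb
    exact ⟨c * s (s B), by push_cast; ring⟩
  have hunit : IsUnit (π ν) := by
    have h1 : IsCoprime ν 5 := hcopν.of_isCoprime_of_dvd_right ⟨2 * b, by ring⟩
    obtain ⟨x, y, hxy⟩ := h1
    apply IsUnit.of_mul_eq_one (π x)
    rw [← map_mul, ← map_one π, ← hπ]
    exact ⟨-y, by linear_combination hxy⟩
  obtain ⟨d, hd⟩ := h.pow5_int e
  have hd' : (5 : O) ∣ (s (s e)) ^ 5 - d := by
    have h1 := map_dvd s (map_dvd s hd)
    simpa only [map_sub, map_pow, map_intCast, map_ofNat] using h1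
  rw [hπ] at hd hd'
  obtain ⟨t, ht⟩ := h.unit u
  have e1 : π (s (s ν)) = π (s (s ρ)) ^ g * (π d * π (s (s u))) := by
    rw [hδ, ← hu]
    simp only [map_mul, map_pow]
    rw [← map_pow, ← map_pow] at hd'
    rw [← hd']
    simp only [map_pow]
  have e2 : π ν = π ρ ^ g * (π d * (π (-z) ^ t * π (s (s u)))) := by
    rw [hδ, ← hu, ← hd, ← map_pow π (-z), ← map_mul π ((-z) ^ t), ← ht]
    simp only [map_mul, map_pow]
  have hw : IsUnit (π d * π (s (s u))) := by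
    apply isUnit_of_mul_isUnit_right (x := π (s (s ρ)) ^ g)
    rw [← e1, hπsν, ← hπν]
    exact hunit
  have e3 : π (-z) ^ t * π ρ ^ g = π (s (s ρ)) ^ g := by
    apply hw.mul_right_cancel
    rw [← e1, hπsν, ← hπν, e2]
    ring
  have hρ5 : π ρ ^ 5 = 3 := by
    have : π (ρ ^ 5) = π 3 := by
      rw [← hπ, hρd]
      exact ⟨6 + 16 * z + 16 * z ^ 2 + 8 * z ^ 3 + 2 * z ^ 4, by linear_combination h.z5⟩
    rw [map_pow, map_ofNat] at this
    exact this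
  have hssρ : s (s ρ) = 2 + z ^ 4 := by
    rw [hρd, map_add, map_ofNat, h.hs, map_add, map_ofNat, map_pow, h.hs]
    ring
  have hρ5' : π (s (s ρ)) ^ 5 = 3 := by
    have : π (s (s ρ) ^ 5) = π 3 := by
      rw [← hπ, hssρ]
      refine ⟨6 + 16 * z ^ 4 + 16 * z ^ 8 + 8 * z ^ 12 + 2 * z ^ 16, ?_⟩
      have h20 : z ^ 20 = 1 := by
        calc z ^ 20 = (z ^ 5) ^ 4 := by ring
          _ = 1 := by rw [h.z5, one_pow]
      linear_combination h20
    rw [map_pow, map_ofNat] at this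
    exact this
  obtain ⟨f, k, hfk⟩ : ∃ f k : ℕ, g * f = 5 * k + 1 := by
    have : g % 5 = 1 ∨ g % 5 = 2 ∨ g % 5 = 3 ∨ g % 5 = 4 := by omega
    rcases this with h1 | h1 | h1 | h1
    · exact ⟨1, g / 5, by omega⟩
    · exact ⟨3, (3 * g) / 5, by omega⟩
    · exact ⟨2, (2 * g) / 5, by omega⟩
    · exact ⟨4, (4 * g) / 5, by omega⟩
  have h3u : IsUnit ((3 : O ⧸ Ideal.span {(5 : O)}) ^ k) := by
    apply IsUnit.pow
    apply IsUnit.of_mul_eq_one 2
    have : π (3 * 2) = π 1 := by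
      rw [← hπ]
      exact ⟨1, by norm_num⟩
    rw [map_mul, map_one, map_ofNat, map_ofNat] at this
    exact this
  have e4 : π (-z) ^ (t * f) * π ρ = π (s (s ρ)) := by
    apply h3u.mul_left_cancel
    have h1 := congrArg (fun x => x ^ f) e3
    simp only [mul_pow, ← pow_mul] at h1
    rw [hfk, pow_succ, pow_succ, pow_mul (π ρ), hρ5, pow_mul (π (s (s ρ))), hρ5'] at h1
    rw [← h1, pow_mul]
    ring
  rw [hssρ, ← map_pow, ← map_mul, ← hπ] at e4
  exact h.rho_conj _ e4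

/-- the key lemma -/
lemma key [IsDomain O] [IsPrincipalIdealRing O] {a b R r : ℤ} {g : ℕ} {B : O}
    (hB1 : B - s B ∣ 10) (hB2 : B - s (s B) ∣ 10) (hB3 : B - s (s (s B)) ∣ 10) (hb : 5 ∣ b)
    (hR : (a + b * B) * (a + b * s B) * (a + b * s (s B)) * (a + b * s (s (s B))) = (R : O))
    (hcop : IsCoprime R (10 * b)) (hRr : R = 11 ^ g * r ^ 5) (hg : ¬ 5 ∣ g) : False := by
  have hs10 : s 10 = 10 := map_ofNat s 10
  have C1 : s B - s (s B) ∣ 10 := by
    have := map_dvd s hB1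
    rwa [map_sub, hs10] at this
  have C2 : s B - s (s (s B)) ∣ 10 := by
    have := map_dvd s hB2
    rwa [map_sub, hs10] at this
  have C3 : s (s B) - s (s (s B)) ∣ 10 := by
    have := map_dvd s C1
    rwa [map_sub, hs10] at this
  have neg : ∀ x y : O, x - y ∣ 10 → y - x ∣ 10 := by
    intro x y hxy
    rw [← neg_sub, neg_dvd]
    exact hxy
  have hρ := h.rho_prime
  have hg0 : g ≠ 0 := by
    rintro rfl
    exact hg (dvd_zero 5)
  have hdiv : (2 + z) ∣ (a + b * B) * (a + b * s B) * (a + b * s (s B)) * (a + b * s (s (s B))) := by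
    rw [hR, hRr]
    push_cast
    apply Dvd.dvd.mul_right
    apply dvd_pow _ hg0
    rw [← h.rho_prod, mul_assoc, mul_assoc]
    exact dvd_mul_right _ _
  have h4 := h.s4 B
  rcases hρ.dvd_or_dvd hdiv with h1 | h1
  · rcases hρ.dvd_or_dvd h1 with h2 | h2
    · rcases hρ.dvd_or_dvd h2 with h3 | h3
      · exact h.key0 hB1 hB2 hB3 hb hR hcop hRr hg h3
      · refine h.key0 (B := s B) C1 C2 ?_ hb ?_ hcop hRr hg h3
        · rw [h4]; exact neg _ _ hB1
        · rw [h4, ← hR]; ring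
    · refine h.key0 (B := s (s B)) C3 ?_ ?_ hb ?_ hcop hRr hg h2
      · rw [h4]; exact neg _ _ hB2
      · rw [h4]; exact neg _ _ C1
      · rw [h4, ← hR]; ring
  · refine h.key0 (B := s (s (s B))) ?_ ?_ ?_ hb ?_ hcop hRr hg h1
    · rw [h4]; exact neg _ _ hB3
    · rw [h4]; exact neg _ _ C2
    · rw [h4]; exact neg _ _ C3
    · rw [h4, ← hR]; ring

/-- the first application -/
theorem app1 [IsDomain O] [IsPrincipalIdealRing O] {a b r : ℤ} {g : ℕ} (hb : 5 ∣ b)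
    (hcop : IsCoprime (a ^ 4 + 10 * a ^ 2 * b ^ 2 + 5 * b ^ 4) (10 * b))
    (hRr : a ^ 4 + 10 * a ^ 2 * b ^ 2 + 5 * b ^ 4 = 11 ^ g * r ^ 5) (hg : ¬ 5 ∣ g) : False := by
  have hz5 := h.z5
  have hz := h.hz
  have s1 : s (z + z ^ 2 - z ^ 3 - z ^ 4) = -z + z ^ 2 - z ^ 3 + z ^ 4 := by
    simp only [map_add, map_sub, map_pow, h.hs]
    linear_combination (-(z + z ^ 3)) * hz5
  have s2 : s (-z + z ^ 2 - z ^ 3 + z ^ 4) = -z - z ^ 2 + z ^ 3 + z ^ 4 := by
    simp only [map_add, map_sub, map_neg, map_pow, h.hs]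
    linear_combination (-z + z ^ 3) * hz5
  have s3 : s (-z - z ^ 2 + z ^ 3 + z ^ 4) = z - z ^ 2 + z ^ 3 - z ^ 4 := by
    simp only [map_add, map_sub, map_neg, map_pow, h.hs]
    linear_combination (z + z ^ 3) * hz5
  refine h.key (a := a) (B := z + z ^ 2 - z ^ 3 - z ^ 4) ?_ ?_ ?_ hb ?_ hcop hRr hg
  · rw [s1]
    refine ⟨-2 - 4 * z - z ^ 2 - 3 * z ^ 3, ?_⟩
    linear_combination (10 - 6 * z + 4 * z ^ 2 - 6 * z ^ 3) * hz
  · rw [s1, s2]
    refine ⟨1 + 2 * z - 2 * z ^ 2 + 4 * z ^ 3, ?_⟩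
    linear_combination (10 - 12 * z - 4 * z ^ 2 + 8 * z ^ 3) * hz
  · rw [s1, s2, s3]
    refine ⟨-1 - 2 * z - 3 * z ^ 2 + z ^ 3, ?_⟩
    linear_combination (10 - 10 * z + 2 * z ^ 2) * hz
  · rw [s1, s2, s3]
    push_cast
    linear_combination ((-5)*(b:O)^4 + (-10)*(a:O)^2*b^2 + 5*z*b^4 + 10*z*a^2*b^2 + (-2)*z^2*a^2*b^2 + 2*z^3*a^2*b^2 + 1*z^4*b^4 + (-2)*z^4*a^2*b^2 + (-6)*z^5*b^4 + 3*z^6*b^4 + 2*z^7*b^4 + (-1)*z^8*b^4 + 2*z^9*b^4 + (-2)*z^10*b^4 + (-1)*z^11*b^4 + 1*z^12*b^4) * hz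

/-- the second application -/
theorem app2 [IsDomain O] [IsPrincipalIdealRing O] {a b r : ℤ} {g : ℕ} (hb : 5 ∣ b)
    (hcop : IsCoprime (a ^ 4 + 50 * a ^ 2 * b ^ 2 + 125 * b ^ 4) (10 * b))
    (hRr : a ^ 4 + 50 * a ^ 2 * b ^ 2 + 125 * b ^ 4 = 11 ^ g * r ^ 5) (hg : ¬ 5 ∣ g) : False := by
  have hz5 := h.z5
  have hz := h.hz
  have s1 : s (3 * z + z ^ 2 - z ^ 3 - 3 * z ^ 4) = -z + 3 * z ^ 2 - 3 * z ^ 3 + z ^ 4 := by
    simp only [map_add, map_sub, map_mul, map_ofNat, map_pow, h.hs]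
    linear_combination (-(z + 3 * z ^ 3)) * hz5
  have s2 : s (-z + 3 * z ^ 2 - 3 * z ^ 3 + z ^ 4) = -3 * z - z ^ 2 + z ^ 3 + 3 * z ^ 4 := by
    simp only [map_add, map_sub, map_neg, map_mul, map_ofNat, map_pow, h.hs]
    linear_combination (-3 * z + z ^ 3) * hz5
  have s3 : s (-3 * z - z ^ 2 + z ^ 3 + 3 * z ^ 4) = z - 3 * z ^ 2 + 3 * z ^ 3 - z ^ 4 := by
    simp only [map_add, map_sub, map_neg, map_mul, map_ofNat, map_pow, h.hs]
    linear_combination (z + 3 * z ^ 3) * hz5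
  refine h.key (a := a) (B := 3 * z + z ^ 2 - z ^ 3 - 3 * z ^ 4) ?_ ?_ ?_ hb ?_ hcop hRr hg
  · rw [s1]
    refine ⟨-1 - 2 * z - z ^ 2 - z ^ 3, ?_⟩
    linear_combination (10 - 6 * z + 2 * z ^ 2 - 4 * z ^ 3) * hz
  · rw [s1, s2]
    refine ⟨-1 - 2 * z - 2 * z ^ 3, ?_⟩
    linear_combination (10 - 4 * z + 8 * z ^ 2 - 12 * z ^ 3) * hz
  · rw [s1, s2, s3]
    refine ⟨-z ^ 2 + z ^ 3, ?_⟩
    linear_combination (10 - 10 * z + 2 * z ^ 3) * hz
  · rw [s1, s2, s3]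
    push_cast
    linear_combination ((-125)*(b:O)^4 + (-50)*(a:O)^2*b^2 + 125*z*b^4 + 50*z*a^2*b^2 + (-10)*z^2*a^2*b^2 + 10*z^3*a^2*b^2 + 9*z^4*b^4 + (-10)*z^4*a^2*b^2 + (-182)*z^5*b^4 + 267*z^6*b^4 + (-174)*z^7*b^4 + 135*z^8*b^4 + (-174)*z^9*b^4 + 142*z^10*b^4 + (-57)*z^11*b^4 + 9*z^12*b^4) * hz

end Cyc5

end Pool.Agent.T6.H9.Q5
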