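import Mathlib

/-!
# Fifth powers in the ring `ℤ[(1 + √5) / 2]`

`golden_fifth`: if `U² - 5 V² = r⁵` with `U` odd, `V` even, `5 ∣ V`, `5 ∤ U`, `U` and `V` coprime,
then `U + V √5 = (m + n √5)⁵` for integers `m`, `n`.
-/

set_option autoImplicit false

namespace Pool.Agent.T6.H9.Q5

open QuadraticAlgebra

/-- the ring `ℤ[ω]`, `ω² = 1 + ω` -/
abbrev G := QuadraticAlgebra ℤ 1 1

/-- the norm -/
def nm (z : G) : ℤ := z.re ^ 2 + z.re * z.im - z.im ^ 2

/-- the golden ratio -/
def om : G := ⟨0, 1⟩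
/-- its inverse -/
def om' : G := ⟨-1, 1⟩

lemma om_mul : om * om' = 1 := by
  ext <;> simp [om, om']

lemma nm_mul (z w : G) : nm (z * w) = nm z * nm w := by
  simp only [nm, re_mul, im_mul]
  ring

lemma nm_star (z : G) : nm (star z) = nm z := by
  simp only [nm, re_star, im_star]
  ring

lemma mul_star_self (z : G) : z * star z = (nm z : G) := by
  ext
  · simp only [nm, re_mul, re_star, im_star, re_intCast, Int.cast_id]; ring
  · simp only [nm, im_mul, re_star, im_star, im_intCast]; ring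

lemma nm_eq_zero {z : G} (h : nm z = 0) : z = 0 := by
  have h1 : Zsqrtd.norm (⟨2 * z.re + z.im, z.im⟩ : ℤ√5) = 0 := by
    rw [Zsqrtd.norm_def]
    simp only [nm] at h
    linear_combination 4 * h
  rw [Zsqrtd.norm_eq_zero] at h1
  · rw [Zsqrtd.ext_iff] at h1
    simp only [Zsqrtd.re_zero, Zsqrtd.im_zero] at h1
    obtain ⟨h2, h3⟩ := h1
    ext
    · simp only [re_zero]; omega
    · simp only [im_zero]; omega
  · intro n hn
    have h4 : n ≤ 2 := by nlinarith
    have h5 : -2 ≤ n := by nlinarith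
    interval_cases n <;> omega

lemma nm_ne_zero {z : G} (h : z ≠ 0) : nm z ≠ 0 := fun h1 => h (nm_eq_zero h1)

instance : IsDomain G := by
  have : NoZeroDivisors G := ⟨by
    intro a b hab
    have h1 : nm a * nm b = 0 := by
      rw [← nm_mul, hab]; simp [nm]
    rcases mul_eq_zero.1 h1 with h | h
    · exact Or.inl (nm_eq_zero h)
    · exact Or.inr (nm_eq_zero h)⟩
  exact NoZeroDivisors.to_isDomain G

lemma exists_round (X n : ℤ) (hn : n ≠ 0) : ∃ q : ℤ, 2 * |X - n * q| ≤ |n| := by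
  refine ⟨round ((X : ℚ) / n), ?_⟩
  have h1 := abs_sub_round ((X : ℚ) / n)
  have hn' : (n : ℚ) ≠ 0 := by exact_mod_cast hn
  have h2 : ((X - n * round ((X : ℚ) / n) : ℤ) : ℚ) = n * ((X : ℚ) / n - round ((X : ℚ) / n)) := by
    push_cast
    field_simp
  have h3 : |((X - n * round ((X : ℚ) / n) : ℤ) : ℚ)| ≤ |(n : ℚ)| * (1 / 2) := by
    rw [h2, abs_mul]
    exact mul_le_mul_of_nonneg_left h1 (abs_nonneg _)
  have h4 : (2 : ℚ) * |((X - n * round ((X : ℚ) / n) : ℤ) : ℚ)| ≤ |(n : ℚ)| := by linarith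
  exact_mod_cast h4

lemma exists_quot (a b : G) (hb : b ≠ 0) : ∃ q : G, |nm (a - b * q)| < |nm b| := by
  have hn := nm_ne_zero hb
  obtain ⟨q0, h0⟩ := exists_round (a * star b).re (nm b) hn
  obtain ⟨q1, h1⟩ := exists_round (a * star b).im (nm b) hn
  refine ⟨⟨q0, q1⟩, ?_⟩
  set n := nm b with hnd
  set x := (a * star b).re - n * q0 with hx
  set y := (a * star b).im - n * q1 with hy
  have h2 : (a - b * ⟨q0, q1⟩) * star b = ⟨x, y⟩ := by
    have e : (a - b * ⟨q0, q1⟩) * star b = a * star b - (b * star b) * ⟨q0, q1⟩ := by ring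
    rw [e, mul_star_self]
    ext
    · simp only [re_sub, re_mul, re_intCast, im_intCast, hx, ← hnd, Int.cast_id]; ring
    · simp only [im_sub, im_mul, re_intCast, im_intCast, hy, ← hnd, Int.cast_id]; ring
  have h3 : nm (a - b * ⟨q0, q1⟩) * n = x ^ 2 + x * y - y ^ 2 := by
    have := congrArg nm h2
    rw [nm_mul, nm_star, ← hnd] at this
    rw [this]
    rfl
  have h4 : |nm (a - b * ⟨q0, q1⟩)| * |n| = |x ^ 2 + x * y - y ^ 2| := by
    rw [← abs_mul, h3]
  have hnpos : 0 < |n| := abs_pos.2 hn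
  have hx2 : 4 * x ^ 2 ≤ |n| ^ 2 := by
    have := abs_nonneg x
    rw [← sq_abs x]; nlinarith
  have hy2 : 4 * y ^ 2 ≤ |n| ^ 2 := by
    have := abs_nonneg y
    rw [← sq_abs y]; nlinarith
  have h5 : |x ^ 2 + x * y - y ^ 2| < |n| ^ 2 := by
    rw [abs_lt]
    constructor <;> nlinarith [sq_nonneg (x - y), sq_nonneg (x + y), sq_nonneg x, sq_nonneg y,
      pow_pos hnpos 2]
  nlinarith

instance : IsPrincipalIdealRing G := by
  refine ⟨fun I => ?_⟩
  by_cases hI : I = ⊥
  · rw [hI]; exact bot_isPrincipal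
  obtain ⟨b0, hb0, hb0'⟩ := Submodule.exists_mem_ne_zero_of_ne_bot hI
  have hex : ∃ k : ℕ, ∃ b ∈ I, b ≠ 0 ∧ (nm b).natAbs = k := ⟨_, b0, hb0, hb0', rfl⟩
  classical
  obtain ⟨b, hb, hbne, hbk⟩ := Nat.find_spec hex
  refine ⟨⟨b, ?_⟩⟩
  apply le_antisymm
  · intro a ha
    obtain ⟨q, hq⟩ := exists_quot a b hbne
    have hmem : a - b * q ∈ I := I.sub_mem ha (I.mul_mem_right _ hb)
    by_cases h0 : a - b * q = 0
    · rw [Submodule.mem_span_singleton]
      exact ⟨q, by rw [smul_eq_mul, mul_comm]; exact (sub_eq_zero.1 h0).symm⟩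
    · exfalso
      have h1 := Nat.find_min' hex ⟨a - b * q, hmem, h0, rfl⟩
      rw [← hbk] at h1
      have h2 : (nm b).natAbs ≤ (nm (a - b * q)).natAbs := h1
      have : |nm b| ≤ |nm (a - b * q)| := by
        rw [Int.abs_eq_natAbs, Int.abs_eq_natAbs]; exact_mod_cast h2
      omega
  · rw [Submodule.span_singleton_le_iff_mem]
    exact hb

/-- units are powers of `om` up to fifth powers -/
lemma unit_aux (n : ℕ) : ∀ u : G, u.re.natAbs + u.im.natAbs ≤ n → (nm u = 1 ∨ nm u = -1) →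
    ∃ (i : ℕ) (η : G), u = om ^ i * η ^ 5 := by
  induction n with
  | zero =>
    intro u hu h
    have h1 : u.re = 0 := by omega
    have h2 : u.im = 0 := by omega
    simp [nm, h1, h2] at h
  | succ n ih =>
    intro u hu h
    obtain ⟨a, b⟩ := u
    simp only [nm] at h hu
    by_cases hb : b = 0
    · subst hb
      have ha : a = 1 ∨ a = -1 := by
        have h3 : a ^ 2 = 1 := by
          rcases h with h | h
          · linarith
          · nlinarith [sq_nonneg a]
        have h4 : (a - 1) * (a + 1) = 0 := by linear_combination h3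
        rcases mul_eq_zero.1 h4 with h | h <;> omega
      rcases ha with rfl | rfl
      · exact ⟨0, 1, by ext <;> simp⟩
      · exact ⟨0, -1, by ext <;> simp [Odd.neg_one_pow (by decide : Odd 5)]⟩
    by_cases ha : a = 0
    · subst ha
      have hb' : b = 1 ∨ b = -1 := by
        have h3 : b ^ 2 = 1 := by
          rcases h with h | h
          · nlinarith [sq_nonneg b]
          · linarith
        have h4 : (b - 1) * (b + 1) = 0 := by linear_combination h3
        rcases mul_eq_zero.1 h4 with h | h <;> omega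
      rcases hb' with rfl | rfl
      · exact ⟨1, 1, by ext <;> simp [om]⟩
      · exact ⟨1, -1, by ext <;> simp [om, Odd.neg_one_pow (by decide : Odd 5)]⟩
    -- `u * om` and `u * om'`
    have key1 : ∀ v : G, (∃ (i : ℕ) (η : G), v = om ^ i * η ^ 5) →
        ∃ (i : ℕ) (η : G), v * om = om ^ i * η ^ 5 := by
      rintro v ⟨i, η, rfl⟩
      exact ⟨i + 1, η, by ring⟩
    have key2 : ∀ v : G, (∃ (i : ℕ) (η : G), v = om ^ i * η ^ 5) →
        ∃ (i : ℕ) (η : G), v * om' = om ^ i * η ^ 5 := by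
      rintro v ⟨i, η, rfl⟩
      refine ⟨i + 4, om' * η, ?_⟩
      have h4 : om ^ 4 * om' ^ 4 = 1 := by rw [← mul_pow, om_mul, one_pow]
      calc om ^ i * η ^ 5 * om' = om ^ i * η ^ 5 * om' * (om ^ 4 * om' ^ 4) := by rw [h4, mul_one]
        _ = om ^ (i + 4) * (om' * η) ^ 5 := by ring
    by_cases hs : 0 < a * b
    · -- same sign
      have e : (⟨a, b⟩ : G) = ⟨b - a, a⟩ * om := by
        ext <;> simp [om]
      rw [e]
      apply key1
      have hba : a.natAbs ≤ b.natAbs := by
        by_contra hcon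
        have h1 : b.natAbs + 1 ≤ a.natAbs := by omega
        have h2 : |b| + 1 ≤ |a| := by
          rw [Int.abs_eq_natAbs, Int.abs_eq_natAbs]; exact_mod_cast h1
        have h3 : 1 ≤ |b| := Int.one_le_abs hb
        have h4 : b ^ 2 + 3 ≤ a ^ 2 := by
          rw [← sq_abs b, ← sq_abs a]; nlinarith
        rcases h with h | h <;> nlinarith
      apply ih
      · simp only
        rcases lt_or_gt_of_ne ha with ha' | ha'
        · have hb' : b < 0 := by nlinarith
          omega
        · have hb' : 0 < b := by nlinarith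
          omega
      · simp only [nm]
        rcases h with h | h
        · right; linear_combination -h
        · left; linear_combination -h
    · have hs' : a * b < 0 := lt_of_le_of_ne (not_lt.1 hs) (mul_ne_zero ha hb)
      have e : (⟨a, b⟩ : G) = ⟨b, a + b⟩ * om' := by
        ext <;> simp [om']
      rw [e]
      apply key2
      have hba : b.natAbs ≤ a.natAbs := by
        by_contra hcon
        have h1 : a.natAbs + 1 ≤ b.natAbs := by omega
        have h2 : |a| + 1 ≤ |b| := by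
          rw [Int.abs_eq_natAbs, Int.abs_eq_natAbs]; exact_mod_cast h1
        have h3 : 1 ≤ |a| := Int.one_le_abs ha
        have h4 : a ^ 2 + 3 ≤ b ^ 2 := by
          rw [← sq_abs b, ← sq_abs a]; nlinarith
        rcases h with h | h <;> nlinarith
      apply ih
      · simp only
        rcases lt_or_gt_of_ne ha with ha' | ha'
        · have hb' : 0 < b := by nlinarith
          omega
        · have hb' : b < 0 := by nlinarith
          omega
      · simp only [nm]
        rcases h with h | h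
        · right; linear_combination -h
        · left; linear_combination -h

/-- units modulo fifth powers -/
lemma unit_five {u : G} (h : nm u = 1 ∨ nm u = -1) : ∃ i < 5, ∃ η : G, u = om ^ i * η ^ 5 := by
  obtain ⟨i, η, rfl⟩ := unit_aux _ u le_rfl h
  refine ⟨i % 5, Nat.mod_lt _ (by norm_num), om ^ (i / 5) * η, ?_⟩
  rw [mul_pow, ← pow_mul, ← mul_assoc, ← pow_add]
  congr 2
  omega

lemma pow_five (p q : ℤ) : (⟨p, q⟩ : G) ^ 5 =
    ⟨p ^ 5 + 10 * p ^ 3 * q ^ 2 + 10 * p ^ 2 * q ^ 3 + 10 * p * q ^ 4 + 3 * q ^ 5,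
      5 * (p ^ 4 * q + 2 * p ^ 3 * q ^ 2 + 4 * p ^ 2 * q ^ 3 + 3 * p * q ^ 4 + q ^ 5)⟩ := by
  ext
  · simp only [pow_succ, pow_zero, re_mul, im_mul, one_mul]; ring
  · simp only [pow_succ, pow_zero, re_mul, im_mul, one_mul]; ring

theorem golden_fifth {U V r : ℤ} (h : U ^ 2 - 5 * V ^ 2 = r ^ 5) (hU : Odd U) (hV : Even V)
    (hV5 : 5 ∣ V) (hU5 : ¬ 5 ∣ U) (hc : IsCoprime U V) :
    ∃ m n : ℤ, U = m * (m ^ 4 + 50 * m ^ 2 * n ^ 2 + 125 * n ^ 4) ∧
      V = 5 * (n * (m ^ 4 + 10 * m ^ 2 * n ^ 2 + 5 * n ^ 4)) := by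
  set α : G := ⟨U - V, 2 * V⟩ with hα
  have hprod : α * star α = (r : G) ^ 5 := by
    rw [mul_star_self]
    have : nm α = r ^ 5 := by rw [← h, hα]; simp only [nm]; ring
    rw [this]; push_cast; rfl
  have h5 : Prime (5 : ℤ) := by norm_num
  have hc5 : IsCoprime U (5 * V) :=
    IsCoprime.mul_right (((h5.coprime_iff_not_dvd).2 hU5).symm) hc
  have hcop : IsCoprime α (star α) := by
    obtain ⟨s, t, hst⟩ := hc5
    have hodd : Odd (r ^ 5) := by
      rw [← h]
      obtain ⟨k, hk⟩ := hV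
      apply Odd.sub_even (hU.pow)
      exact ⟨5 * k * V, by rw [hk]; ring⟩
    obtain ⟨k, hk⟩ := hodd
    refine ⟨star α - k * s - k * t * ⟨-1, 2⟩, -(k * s) + k * t * ⟨-1, 2⟩, ?_⟩
    have e1 : α + star α = ((2 * U : ℤ) : G) := by
      ext
      · simp only [re_add, re_star, re_intCast, hα, Int.cast_id]; ring
      · simp only [im_add, im_star, im_intCast, hα]; ring
    have e2 : (α - star α) * ⟨-1, 2⟩ = ((10 * V : ℤ) : G) := by
      ext
      · simp only [re_sub, im_sub, re_mul, re_star, im_star, re_intCast, hα, Int.cast_id]; ring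
      · simp only [re_sub, im_sub, im_mul, re_star, im_star, im_intCast, hα]; ring
    have e3 : α * star α = ((2 * k + 1 : ℤ) : G) := by
      rw [hprod, ← hk]; push_cast; rfl
    have e4 : ((s * U + t * (5 * V) : ℤ) : G) = 1 := by rw [hst]; simp
    push_cast at e1 e2 e3 e4
    linear_combination e3 - k * s * e1 - k * t * e2 - 2 * k * e4
  obtain ⟨d, hd⟩ := exists_associated_pow_of_mul_eq_pow' hcop hprod
  obtain ⟨u, hu⟩ := hd
  have hun : nm (u : G) = 1 ∨ nm (u : G) = -1 := by
    have h1 : nm (u : G) * nm ((u⁻¹ : Gˣ) : G) = 1 := by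
      rw [← nm_mul, Units.mul_inv]; simp [nm]
    exact Int.isUnit_iff.1 (IsUnit.of_mul_eq_one _ h1)
  obtain ⟨i, hi, η, hη⟩ := unit_five hun
  obtain ⟨p, q, hpq⟩ : ∃ p q : ℤ, η * d = ⟨p, q⟩ := ⟨_, _, rfl⟩
  have hmain : α = om ^ i * (⟨p, q⟩ : G) ^ 5 := by
    rw [← hpq, ← hu, hη]; ring
  rw [pow_five] at hmain
  obtain ⟨V5, hV5⟩ := hV5
  set A := p ^ 5 + 10 * p ^ 3 * q ^ 2 + 10 * p ^ 2 * q ^ 3 + 10 * p * q ^ 4 + 3 * q ^ 5 with hA
  set B := p ^ 4 * q + 2 * p ^ 3 * q ^ 2 + 4 * p ^ 2 * q ^ 3 + 3 * p * q ^ 4 + q ^ 5 with hB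
  have hre := congrArg re hmain
  have him := congrArg im hmain
  rw [hα] at hre him
  have hi0 : i = 0 := by
    by_contra hne
    apply hU5
    interval_cases i
    · exact absurd rfl hne
    · simp [pow_succ, om] at hre him
      omega
    · simp [pow_succ, om] at hre him
      omega
    · simp [pow_succ, om] at hre him
      omega
    · simp [pow_succ, om] at hre him
      omega
  subst hi0
  simp only [pow_zero, one_mul] at hre him
  have hBe : Even B := by
    obtain ⟨k, hk⟩ := hV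
    refine ⟨B - 2 * B + 2 * k - B, ?_⟩
    omega
  have hqe : Even q := by
    by_contra hq
    rw [Int.not_even_iff_odd] at hq
    apply (Int.not_even_iff_odd.2 ?_) hBe
    rcases Int.even_or_odd p with hp | hp
    · have : B = p * (p ^ 3 * q + 2 * p ^ 2 * q ^ 2 + 4 * p * q ^ 3 + 3 * q ^ 4) + q ^ 5 := by
        rw [hB]; ring
      rw [this]
      exact (hp.mul_right _).add_odd hq.pow
    · have : B = 2 * (p ^ 3 * q ^ 2 + 2 * p ^ 2 * q ^ 3 + p * q ^ 4) + (p ^ 4 * q + p * q ^ 4) +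
          q ^ 5 := by
        rw [hB]; ring
      rw [this]
      apply Even.add_odd _ hq.pow
      apply Even.add (even_two_mul _)
      exact ((hp.pow).mul hq).add_odd (hp.mul hq.pow)
  obtain ⟨n, hn⟩ := hqe
  have hV' : V = 5 * (n * ((p + n) ^ 4 + 10 * (p + n) ^ 2 * n ^ 2 + 5 * n ^ 4)) := by
    have : 2 * V = 2 * (5 * (n * ((p + n) ^ 4 + 10 * (p + n) ^ 2 * n ^ 2 + 5 * n ^ 4))) := by
      rw [him, hB, hn]; ring
    exact mul_left_cancel₀ two_ne_zero this
  refine ⟨p + n, n, ?_, hV'⟩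
  have : U = A + V := by rw [← hre]; ring
  rw [this, hV', hA, hn]; ring

end Pool.Agent.T6.H9.Q5
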