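import Pool.Agent.T6.H9.Q5.CycRing
import Pool.Agent.T6.H9.Q5.Golden

/-!
# The equation `x⁵ + y⁵ = 88 w⁵`

Infinite descent in `ℤ[(1 + √5) / 2]` (Dirichlet), the prime `11` being controlled at every stage by
the lemma on `ℤ[ζ₅]`.
-/

set_option autoImplicit false

namespace Pool.Agent.T6.H9.Q5

lemma no11a {a b r : ℤ} {g : ℕ} (hb : 5 ∣ b)
    (hcop : IsCoprime (a ^ 4 + 10 * a ^ 2 * b ^ 2 + 5 * b ^ 4) (10 * b))
    (hRr : a ^ 4 + 10 * a ^ 2 * b ^ 2 + 5 * b ^ 4 = 11 ^ g * r ^ 5) (hg : ¬ 5 ∣ g) : False := by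
  obtain ⟨O, _, _, _, z, s, h⟩ := exists_cyc5
  exact h.app1 hb hcop hRr hg

lemma no11b {a b r : ℤ} {g : ℕ} (hb : 5 ∣ b)
    (hcop : IsCoprime (a ^ 4 + 50 * a ^ 2 * b ^ 2 + 125 * b ^ 4) (10 * b))
    (hRr : a ^ 4 + 50 * a ^ 2 * b ^ 2 + 125 * b ^ 4 = 11 ^ g * r ^ 5) (hg : ¬ 5 ∣ g) : False := by
  obtain ⟨O, _, _, _, z, s, h⟩ := exists_cyc5
  exact h.app2 hb hcop hRr hg

lemma cop2 {a : ℤ} (h : Odd a) : IsCoprime a 2 := by
  obtain ⟨k, hk⟩ := h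
  exact ⟨1, -k, by rw [hk]; ring⟩

lemma cop5 {a : ℤ} (h : ¬ 5 ∣ a) : IsCoprime a 5 :=
  ((show Prime (5 : ℤ) by norm_num).coprime_iff_not_dvd.2 h).symm

lemma cop11 {a : ℤ} (h : ¬ 11 ∣ a) : IsCoprime a 11 :=
  ((show Prime (11 : ℤ) by norm_num).coprime_iff_not_dvd.2 h).symm

/-- the situation at a stage of the descent -/
structure St (m n : ℤ) : Prop where
  cop : IsCoprime m n
  odd : Odd m
  even : Even n
  five : ¬ 5 ∣ m
  ne : n ≠ 0
  eq : ∃ (f e : ℕ) (k : ℤ), ¬ 5 ∣ e ∧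
    n * (m ^ 4 + 10 * m ^ 2 * n ^ 2 + 5 * n ^ 4) = 2 ^ f * 5 ^ 6 * 11 ^ e * k ^ 5

/-- from `U + V √5` to the next stage -/
lemma next {U V r : ℤ} (h : U ^ 2 - 5 * V ^ 2 = r ^ 5) (hU : Odd U) (hV : Even V)
    (hV5 : 5 ∣ V) (hU5 : ¬ 5 ∣ U) (hc : IsCoprime U V) (hV0 : V ≠ 0) :
    ∃ m n : ℤ, IsCoprime m n ∧ Odd m ∧ Even n ∧ ¬ 5 ∣ m ∧ n ≠ 0 ∧
      V = 5 * (n * (m ^ 4 + 10 * m ^ 2 * n ^ 2 + 5 * n ^ 4)) := by
  obtain ⟨m, n, hm, hn⟩ := golden_fifth h hU hV hV5 hU5 hc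
  have hmU : m ∣ U := ⟨_, hm⟩
  have hnV : n ∣ V := ⟨5 * (m ^ 4 + 10 * m ^ 2 * n ^ 2 + 5 * n ^ 4), by rw [hn]; ring⟩
  have hmo : Odd m := by
    rw [hm] at hU
    exact (Int.odd_mul.1 hU).1
  refine ⟨m, n, (hc.of_isCoprime_of_dvd_left hmU).of_isCoprime_of_dvd_right hnV, hmo, ?_,
    fun h5 => hU5 (h5.trans hmU), ?_, hn⟩
  · by_contra hne
    rw [Int.not_even_iff_odd] at hne
    rw [hm] at hU
    have h1 := (Int.odd_mul.1 hU).2
    have h2 : Even (m ^ 4 + 50 * m ^ 2 * n ^ 2 + 125 * n ^ 4) := by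
      have e : m ^ 4 + 50 * m ^ 2 * n ^ 2 + 125 * n ^ 4 =
        (m ^ 4 + n ^ 4) + 2 * (25 * m ^ 2 * n ^ 2 + 62 * n ^ 4) := by ring
      rw [e]
      exact ((hmo.pow).add_odd hne.pow).add (even_two_mul _)
    exact (Int.not_even_iff_odd.2 h1) h2
  · rintro rfl
    apply hV0
    rw [hn]; ring

lemma step {m n : ℤ} (h : St m n) : ∃ m' n' : ℤ, St m' n' ∧ n'.natAbs < n.natAbs := by
  obtain ⟨hcop, hodd, heven, h5, hne, f, e, k, he, heq⟩ := h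
  set R := m ^ 4 + 10 * m ^ 2 * n ^ 2 + 5 * n ^ 4 with hR
  have hRn : IsCoprime R n := by
    have : R = m ^ 4 + n * (10 * m ^ 2 * n + 5 * n ^ 3) := by rw [hR]; ring
    rw [this]
    exact (IsCoprime.add_mul_left_left_iff).2 hcop.pow_left
  have hR2 : IsCoprime R 2 := by
    apply cop2
    rw [hR]
    have h1 : Even (10 * m ^ 2 * n ^ 2) := ⟨5 * m ^ 2 * n ^ 2, by ring⟩
    have h2 : Even (5 * n ^ 4) := (heven.pow_of_ne_zero (by norm_num)).mul_left _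
    exact (hodd.pow.add_even h1).add_even h2
  have hR5 : IsCoprime R 5 := by
    apply cop5
    intro h1
    apply h5
    apply (show Prime (5 : ℤ) by norm_num).dvd_of_dvd_pow (n := 4)
    have e1 : m ^ 4 = R - 5 * (2 * m ^ 2 * n ^ 2 + n ^ 4) := by rw [hR]; ring
    rw [e1]
    exact dvd_sub h1 (dvd_mul_right _ _)
  have hR10 : IsCoprime R (10 * n) := by
    have e1 : (10 : ℤ) * n = 2 * 5 * n := by ring
    rw [e1]
    exact (hR2.mul_right hR5).mul_right hRn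
  have hRc : IsCoprime R (2 ^ f * 5 ^ 6) := hR2.pow_right.mul_right hR5.pow_right
  have hcn : (2 ^ f * 5 ^ 6 : ℤ) ∣ n := by
    apply hRc.symm.dvd_of_dvd_mul_right
    rw [heq]
    exact ⟨11 ^ e * k ^ 5, by ring⟩
  have h5n : 5 ∣ n := (dvd_mul_of_dvd_right (dvd_pow_self 5 (by norm_num)) _).trans hcn
  have hR0 : R ≠ 0 := by
    intro h0
    rw [h0] at hR2
    have := (isCoprime_zero_left.1 hR2)
    rw [Int.isUnit_iff] at this
    omega
  have h11 : ¬ 11 ∣ R := by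
    intro h11
    have hp : Prime (11 : ℤ) := by norm_num
    have h11n : ¬ 11 ∣ n := fun h1 => hp.not_isUnit (hRn.isUnit_of_dvd' h11 h1)
    have hk0 : k ≠ 0 := by
      rintro rfl
      rw [zero_pow (by norm_num), mul_zero] at heq
      exact (mul_ne_zero hne hR0) heq
    obtain ⟨j, k₁, hk₁, hk⟩ : ∃ (j : ℕ) (k₁ : ℤ), ¬ 11 ∣ k₁ ∧ k = 11 ^ j * k₁ := by
      have hfin : FiniteMultiplicity (11 : ℤ) k := by
        rw [Int.finiteMultiplicity_iff]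
        exact ⟨by norm_num, hk0⟩
      obtain ⟨c, hc1, hc2⟩ := hfin.exists_eq_pow_mul_and_not_dvd
      exact ⟨_, c, hc2, hc1⟩
    have hn11 : IsCoprime n (11 ^ (e + 5 * j)) := (cop11 h11n).pow_right
    obtain ⟨R₁, hR₁⟩ : (11 : ℤ) ^ (e + 5 * j) ∣ R := by
      apply hn11.symm.dvd_of_dvd_mul_left
      rw [heq, hk]
      exact ⟨2 ^ f * 5 ^ 6 * k₁ ^ 5, by ring⟩
    obtain ⟨n₁, hn₁⟩ := hcn
    have h1 : n₁ * R₁ = k₁ ^ 5 := by
      have hc : (2 ^ f * 5 ^ 6 * 11 ^ (e + 5 * j) : ℤ) ≠ 0 := by positivity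
      apply mul_left_cancel₀ hc
      have e1 := heq
      rw [hk, hR₁] at e1
      nth_rewrite 1 [hn₁] at e1
      linear_combination e1
    have hc1 : IsCoprime n₁ R₁ :=
      (hRn.symm.of_isCoprime_of_dvd_left ⟨_, by rw [hn₁, mul_comm]⟩).of_isCoprime_of_dvd_right
        ⟨_, by rw [hR₁, mul_comm]⟩
    obtain ⟨-, r, hr⟩ := Int.eq_pow_of_mul_eq_pow_odd hc1 (by decide) h1
    refine no11a (r := r) (g := e + 5 * j) h5n hR10 ?_ ?_
    · rw [← hr, ← hR₁]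
    · omega
  -- so `R` is a fifth power
  have hRc' : IsCoprime R (2 ^ f * 5 ^ 6 * 11 ^ e) := hRc.mul_right (cop11 h11).pow_right
  obtain ⟨n₁, hn₁⟩ : (2 ^ f * 5 ^ 6 * 11 ^ e : ℤ) ∣ n := by
    apply hRc'.symm.dvd_of_dvd_mul_right
    rw [heq]
    exact ⟨k ^ 5, by ring⟩
  have h1 : n₁ * R = k ^ 5 := by
    have hc : (2 ^ f * 5 ^ 6 * 11 ^ e : ℤ) ≠ 0 := by positivity
    apply mul_left_cancel₀ hc
    rw [← heq]
    conv_rhs => rw [hn₁]
    ring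
  have hc1 : IsCoprime n₁ R := hRn.symm.of_isCoprime_of_dvd_left ⟨_, by rw [hn₁, mul_comm]⟩
  obtain ⟨⟨l, hl⟩, r, hr⟩ := Int.eq_pow_of_mul_eq_pow_odd hc1 (by decide) h1
  have hn2 : Even (n ^ 2) := heven.pow_of_ne_zero (by norm_num)
  have hUo : Odd (m ^ 2 + 5 * n ^ 2) := hodd.pow.add_even (hn2.mul_left _)
  have hU5 : ¬ 5 ∣ m ^ 2 + 5 * n ^ 2 := by
    intro h1
    apply h5
    apply (show Prime (5 : ℤ) by norm_num).dvd_of_dvd_pow (n := 2)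
    exact (Int.dvd_iff_dvd_of_dvd_add h1).2 (dvd_mul_right _ _)
  have hUV : IsCoprime (m ^ 2 + 5 * n ^ 2) (2 * n ^ 2) := by
    apply IsCoprime.mul_right (cop2 hUo)
    apply IsCoprime.pow_right
    have : m ^ 2 + 5 * n ^ 2 = m ^ 2 + n * (5 * n) := by ring
    rw [this]
    exact (IsCoprime.add_mul_left_left_iff).2 hcop.pow_left
  obtain ⟨m', n', c1, c2, c3, c4, c5, c6⟩ := next (U := m ^ 2 + 5 * n ^ 2) (V := 2 * n ^ 2) (r := r)
    (by rw [← hr, hR]; ring) hUo (even_two_mul _)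
    ((h5n.trans (dvd_pow_self n (by norm_num))).mul_left _) hU5 hUV
    (mul_ne_zero two_ne_zero (pow_ne_zero _ hne))
  refine ⟨m', n', ⟨c1, c2, c3, c4, c5, 2 * f + 1, 2 * e, 5 * l ^ 2, by omega, ?_⟩, ?_⟩
  · have h5' : (5 : ℤ) ≠ 0 := by norm_num
    apply mul_left_cancel₀ h5'
    rw [← c6, hn₁, hl]
    ring
  · -- size
    have hpos : 0 < n' * (m' ^ 4 + 10 * m' ^ 2 * n' ^ 2 + 5 * n' ^ 4) := by
      have : 0 < n ^ 2 := by positivity
      linarith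
    have hn'pos : 0 < n' := by
      have h2 : 0 < m' ^ 4 + 10 * m' ^ 2 * n' ^ 2 + 5 * n' ^ 4 := by positivity
      exact (pos_iff_pos_of_mul_pos hpos).2 h2
    by_contra hcon
    rw [not_lt] at hcon
    have h3 : n ^ 2 ≤ n' ^ 2 := by
      rw [← Int.natAbs_sq n, ← Int.natAbs_sq n']
      have : (n.natAbs : ℤ) ≤ n'.natAbs := by exact_mod_cast hcon
      nlinarith [Int.natCast_nonneg n.natAbs]
    have h4 : n' * (5 * n' ^ 4) ≤ n' * (m' ^ 4 + 10 * m' ^ 2 * n' ^ 2 + 5 * n' ^ 4) := by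
      apply mul_le_mul_of_nonneg_left _ hn'pos.le
      have : 0 ≤ m' ^ 4 + 10 * m' ^ 2 * n' ^ 2 := by positivity
      linarith
    have h6 : 25 * n' ^ 5 ≤ 2 * n' ^ 2 := by nlinarith
    have h7 : 1 ≤ n' ^ 3 := one_le_pow₀ hn'pos
    nlinarith [pow_pos hn'pos 2]

lemma no_St : ∀ (N : ℕ) (m n : ℤ), n.natAbs = N → ¬ St m n := by
  intro N
  induction N using Nat.strong_induction_on with
  | _ N ih =>
    intro m n hN h
    obtain ⟨m', n', h', hlt⟩ := step h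
    exact ih _ (by omega) m' n' rfl h'

lemma fifth_mod (x : ℤ) : (x % 5 = 0 ∧ x ^ 5 % 25 = 0) ∨ (x % 5 ≠ 0 ∧
    (x ^ 5 % 25 = 1 ∨ x ^ 5 % 25 = 7 ∨ x ^ 5 % 25 = 18 ∨ x ^ 5 % 25 = 24)) := by
  obtain ⟨q, i, hqi, hi, hi0, hi5⟩ : ∃ q i : ℤ, x = 5 * q + i ∧ x % 5 = i ∧ 0 ≤ i ∧ i < 5 :=
    ⟨x / 5, x % 5, by omega, rfl, by omega, by omega⟩
  have h1 : x ^ 5 = i ^ 5 + 25 * (q * i ^ 4 + 10 * q ^ 2 * i ^ 3 + 50 * q ^ 3 * i ^ 2 +
      125 * q ^ 4 * i + 125 * q ^ 5) := by rw [hqi]; ring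
  rw [hi, h1]
  generalize q * i ^ 4 + 10 * q ^ 2 * i ^ 3 + 50 * q ^ 3 * i ^ 2 + 125 * q ^ 4 * i + 125 * q ^ 5 = Z
  interval_cases i <;> omega

/-- `x⁵ + y⁵ = 88 w⁵` has no solution in coprime integers with `w ≠ 0` -/
theorem no88 {x y w : ℤ} (hc : IsCoprime x y) (hw : w ≠ 0) (h : x ^ 5 + y ^ 5 = 88 * w ^ 5) :
    False := by
  -- `x` and `y` are odd
  have hpar : Odd x ∧ Odd y := by
    have h2 : Even (x ^ 5 + y ^ 5) := by rw [h]; exact ⟨44 * w ^ 5, by ring⟩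
    rw [Int.even_add, Int.even_pow' (by norm_num), Int.even_pow' (by norm_num)] at h2
    by_cases hx : Even x
    · exfalso
      have hy := h2.1 hx
      have := hc.isUnit_of_dvd' hx.two_dvd hy.two_dvd
      rw [Int.isUnit_iff] at this
      omega
    · exact ⟨Int.not_even_iff_odd.1 hx, Int.not_even_iff_odd.1 fun hy => hx (h2.2 hy)⟩
  obtain ⟨b0, hb0⟩ := hpar.1.add_odd hpar.2
  obtain ⟨a, ha⟩ : ∃ a, x = b0 + a := ⟨x - b0, by ring⟩
  have hy : y = b0 - a := by omega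
  have h1 : b0 * (b0 ^ 4 + 10 * b0 ^ 2 * a ^ 2 + 5 * a ^ 4) = 44 * w ^ 5 := by
    have e : 2 * (b0 * (b0 ^ 4 + 10 * b0 ^ 2 * a ^ 2 + 5 * a ^ 4)) = 2 * (44 * w ^ 5) := by
      rw [ha, hy] at h
      linear_combination h
    exact mul_left_cancel₀ two_ne_zero e
  have hcab : IsCoprime a b0 := by
    obtain ⟨s, t, hst⟩ := hc
    exact ⟨s - t, s + t, by rw [← hst, ha, hy]; ring⟩
  have hp5 : Prime (5 : ℤ) := by norm_num
  -- `5 ∣ w`
  have hw5 : 5 ∣ w := by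
    have hx5 := fifth_mod x
    have hy5 := fifth_mod y
    have hw5 := fifth_mod w
    have hnot : ¬ (x % 5 = 0 ∧ y % 5 = 0) := by
      rintro ⟨h2, h3⟩
      exact hp5.not_isUnit (hc.isUnit_of_dvd' (Int.dvd_of_emod_eq_zero h2)
        (Int.dvd_of_emod_eq_zero h3))
    generalize x ^ 5 = X at *
    generalize y ^ 5 = Y at *
    generalize w ^ 5 = W at *
    omega
  obtain ⟨w₁, rfl⟩ := hw5
  have hb5 : 5 ∣ b0 := by
    apply hp5.dvd_of_dvd_pow (n := 5)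
    have e : b0 ^ 5 = 5 * (44 * 625 * w₁ ^ 5 - 2 * b0 ^ 3 * a ^ 2 - b0 * a ^ 4) := by
      linear_combination h1
    rw [e]
    exact dvd_mul_right _ _
  obtain ⟨b, rfl⟩ := hb5
  set T := a ^ 4 + 50 * a ^ 2 * b ^ 2 + 125 * b ^ 4 with hT
  have h2 : b * T = 5500 * w₁ ^ 5 := by
    have e : (25 : ℤ) * (b * T) = 25 * (5500 * w₁ ^ 5) := by
      rw [hT]; linear_combination h1
    exact mul_left_cancel₀ (by norm_num) e
  have hcab' : IsCoprime a b := hcab.of_isCoprime_of_dvd_right (dvd_mul_left _ _)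
  have ha5 : ¬ 5 ∣ a := fun h5 => hp5.not_isUnit (hcab.isUnit_of_dvd' h5 (dvd_mul_right _ _))
  have hab : Odd (a + b) := by
    have := hpar.1
    rw [ha] at this
    have e : a + b = 5 * b + a - 2 * (2 * b) := by ring
    rw [e]
    exact this.sub_even (even_two_mul _)
  have hTo : Odd T := by
    have e : T = (a + b) ^ 4 + 2 * (-2 * a ^ 3 * b + 22 * a ^ 2 * b ^ 2 - 2 * a * b ^ 3 +
        62 * b ^ 4) := by rw [hT]; ring
    rw [e]
    exact hab.pow.add_even (even_two_mul _)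
  have hT2 : IsCoprime T 2 := cop2 hTo
  have hT5 : IsCoprime T 5 := by
    apply cop5
    intro h3
    apply ha5
    apply hp5.dvd_of_dvd_pow (n := 4)
    have e1 : a ^ 4 = T - 5 * (10 * a ^ 2 * b ^ 2 + 25 * b ^ 4) := by rw [hT]; ring
    rw [e1]
    exact dvd_sub h3 (dvd_mul_right _ _)
  have hTb : IsCoprime T b := by
    have : T = a ^ 4 + b * (50 * a ^ 2 * b + 125 * b ^ 3) := by rw [hT]; ring
    rw [this]
    exact (IsCoprime.add_mul_left_left_iff).2 hcab'.pow_left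
  have hT10 : IsCoprime T (10 * b) := by
    have e1 : (10 : ℤ) * b = 2 * 5 * b := by ring
    rw [e1]
    exact (hT2.mul_right hT5).mul_right hTb
  obtain ⟨b₁, hb₁⟩ : (2 ^ 2 * 5 ^ 3 : ℤ) ∣ b := by
    apply (hT2.pow_right.mul_right hT5.pow_right).symm.dvd_of_dvd_mul_right
    rw [h2]
    exact ⟨11 * w₁ ^ 5, by ring⟩
  have h3 : b₁ * T = 11 * w₁ ^ 5 := by
    have e : (500 : ℤ) * (b₁ * T) = 500 * (11 * w₁ ^ 5) := by
      have h2' := h2
      nth_rewrite 1 [hb₁] at h2'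
      linear_combination h2'
    exact mul_left_cancel₀ (by norm_num) e
  have hTb₁ : IsCoprime b₁ T := hTb.symm.of_isCoprime_of_dvd_left ⟨_, by rw [hb₁, mul_comm]⟩
  have h5b : 5 ∣ b := (by norm_num : (5 : ℤ) ∣ 2 ^ 2 * 5 ^ 3).trans ⟨_, hb₁⟩
  have hbe : Even b := by
    rw [hb₁]
    exact ⟨250 * b₁, by ring⟩
  have hao : Odd a := by
    have e : a = a + b - b := by ring
    rw [e]
    exact hab.sub_even hbe
  -- `11` does not divide `T`
  have h11 : ¬ 11 ∣ T := by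
    rintro ⟨T₁, hT₁⟩
    have h4 : b₁ * T₁ = w₁ ^ 5 := by
      apply mul_left_cancel₀ (show (11 : ℤ) ≠ 0 by norm_num)
      rw [← h3, hT₁]; ring
    have hc1 : IsCoprime b₁ T₁ := hTb₁.of_isCoprime_of_dvd_right ⟨_, by rw [hT₁, mul_comm]⟩
    obtain ⟨-, r, hr⟩ := Int.eq_pow_of_mul_eq_pow_odd hc1 (by decide) h4
    refine no11b (a := a) (b := b) (r := r) (g := 1) h5b hT10 ?_ (by norm_num)
    rw [← hT, hT₁, hr, pow_one]
  obtain ⟨b₂, hb₂⟩ : (11 : ℤ) ∣ b₁ := by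
    apply (cop11 h11).symm.dvd_of_dvd_mul_right
    rw [h3]
    exact dvd_mul_right _ _
  have h4 : b₂ * T = w₁ ^ 5 := by
    apply mul_left_cancel₀ (show (11 : ℤ) ≠ 0 by norm_num)
    rw [← h3, hb₂]; ring
  have hc2 : IsCoprime b₂ T := hTb₁.of_isCoprime_of_dvd_left ⟨_, by rw [hb₂, mul_comm]⟩
  obtain ⟨⟨s, hs⟩, r, hr⟩ := Int.eq_pow_of_mul_eq_pow_odd hc2 (by decide) h4
  have hb0 : b ≠ 0 := by
    rintro rfl
    have : w₁ ^ 5 = 0 := by linarith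
    exact hw (by rw [pow_eq_zero_iff (by norm_num)] at this; rw [this, mul_zero])
  have hUo : Odd (a ^ 2 + 25 * b ^ 2) :=
    hao.pow.add_even ((hbe.pow_of_ne_zero (by norm_num)).mul_left _)
  obtain ⟨m, n, c1, c2, c3, c4, c5, c6⟩ := next (U := a ^ 2 + 25 * b ^ 2) (V := 10 * b ^ 2) (r := r)
    (by rw [← hr, hT]; ring) hUo ⟨5 * b ^ 2, by ring⟩ ⟨2 * b ^ 2, by ring⟩
    (by
      intro h6
      apply ha5
      apply hp5.dvd_of_dvd_pow (n := 2)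
      exact (Int.dvd_iff_dvd_of_dvd_add h6).2 ⟨5 * b ^ 2, by ring⟩)
    (by
      have e : (10 : ℤ) * b ^ 2 = 2 * 5 * b ^ 2 := by ring
      rw [e]
      refine ((cop2 hUo).mul_right ?_).mul_right ?_
      · have e2 : a ^ 2 + 25 * b ^ 2 = a ^ 2 + 5 * (5 * b ^ 2) := by ring
        rw [e2]
        exact (IsCoprime.add_mul_left_left_iff).2 (cop5 ha5).pow_left
      · apply IsCoprime.pow_right
        have e2 : a ^ 2 + 25 * b ^ 2 = a ^ 2 + b * (25 * b) := by ring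
        rw [e2]
        exact (IsCoprime.add_mul_left_left_iff).2 hcab'.pow_left)
    (mul_ne_zero (by norm_num) (pow_ne_zero _ hb0))
  refine no_St _ m n rfl ⟨c1, c2, c3, c4, c5, 5, 2, s ^ 2, by norm_num, ?_⟩
  apply mul_left_cancel₀ (show (5 : ℤ) ≠ 0 by norm_num)
  rw [← c6, hb₁, hb₂, hs]
  ring

lemma dvd_of_pow_dvd {d z : ℤ} (hd : d ≠ 0) (h : d ^ 5 ∣ 11 * z ^ 5) : d ∣ z := by
  have hp : Prime (11 : ℤ) := by norm_num
  have h1 : d ^ 5 ∣ (11 * z) ^ 5 := by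
    refine h.trans ⟨11 ^ 4, by ring⟩
  rw [Int.pow_dvd_pow_iff (by norm_num)] at h1
  obtain ⟨t, ht⟩ := h1
  have h2 : (11 : ℤ) ∣ d * t := ⟨z, ht.symm⟩
  rcases hp.dvd_or_dvd h2 with ⟨d₁, rfl⟩ | ⟨t₁, rfl⟩
  · have hz : z = d₁ * t := by
      apply mul_left_cancel₀ (show (11 : ℤ) ≠ 0 by norm_num)
      rw [ht]; ring
    have hd₁ : d₁ ≠ 0 := by rintro rfl; simp at hd
    have h3 : 11 ∣ t := by
      obtain ⟨c, hc⟩ := h
      apply hp.dvd_of_dvd_pow (n := 5)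
      refine ⟨11 ^ 3 * c, ?_⟩
      have h4 : (11 * d₁ ^ 5) ≠ 0 := by positivity
      apply mul_left_cancel₀ h4
      rw [hz] at hc
      linear_combination hc
    obtain ⟨t₁, rfl⟩ := h3
    exact ⟨t₁, by rw [hz]; ring⟩
  · refine ⟨t₁, ?_⟩
    apply mul_left_cancel₀ (show (11 : ℤ) ≠ 0 by norm_num)
    rw [ht]; ring

/-- the solutions of `4 x⁵ + 4 y⁵ + 11 z⁵ = 0` -/
theorem main {x y z : ℤ} (h : 4 * x ^ 5 + 4 * y ^ 5 + 11 * z ^ 5 = 0) : z = 0 ∧ y = -x := by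
  have hz : z = 0 := by
    by_contra hz
    have hxy : ¬ (x = 0 ∧ y = 0) := by
      rintro ⟨rfl, rfl⟩
      apply hz
      have : z ^ 5 = 0 := by linarith
      rwa [pow_eq_zero_iff (by norm_num)] at this
    have hd : (Int.gcd x y : ℤ) ≠ 0 := by
      intro h0
      apply hxy
      exact Int.gcd_eq_zero_iff.1 (by exact_mod_cast h0)
    obtain ⟨x', hx'⟩ := Int.gcd_dvd_left x y
    obtain ⟨y', hy'⟩ := Int.gcd_dvd_right x y
    set d : ℤ := (Int.gcd x y : ℤ) with hdd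
    have hcop : IsCoprime x' y' := by
      obtain ⟨s, t, hst⟩ : ∃ s t : ℤ, d = x * s + y * t := ⟨_, _, Int.gcd_eq_gcd_ab x y⟩
      refine ⟨s, t, ?_⟩
      apply mul_left_cancel₀ hd
      have e : d * (s * x' + t * y') = (d * x') * s + (d * y') * t := by ring
      rw [mul_one, e, ← hx', ← hy', ← hst]
    have h1 : d ^ 5 ∣ 11 * z ^ 5 := by
      refine ⟨-(4 * (x' ^ 5 + y' ^ 5)), ?_⟩
      rw [hx', hy'] at h
      linear_combination h
    obtain ⟨z', hz'⟩ := dvd_of_pow_dvd hd h1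
    have h2 : 4 * x' ^ 5 + 4 * y' ^ 5 + 11 * z' ^ 5 = 0 := by
      apply mul_left_cancel₀ (pow_ne_zero 5 hd)
      rw [hx', hy', hz'] at h
      linear_combination h
    have hz'e : Even z' := by
      have h3 : Even (11 * z' ^ 5) := ⟨-2 * (x' ^ 5 + y' ^ 5), by linear_combination h2⟩
      rw [Int.even_mul, Int.even_pow' (by norm_num)] at h3
      rcases h3 with h3 | h3
      · exact absurd h3 (by decide)
      · exact h3
    obtain ⟨w, hw⟩ := hz'e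
    refine no88 (w := -w) hcop ?_ ?_
    · intro h0
      apply hz
      rw [hz', hw, neg_eq_zero.1 h0]; ring
    · apply mul_left_cancel₀ (show (4 : ℤ) ≠ 0 by norm_num)
      rw [hw] at h2
      linear_combination h2
  refine ⟨hz, ?_⟩
  subst hz
  have h1 : y ^ 5 = (-x) ^ 5 := by
    rw [Odd.neg_pow (by decide)]
    linarith
  exact (Odd.strictMono_pow (by decide : Odd 5)).injective h1

end Pool.Agent.T6.H9.Q5
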